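import Pool.Agent.Lib.MP_6ff8d9_an_h8.SymRows
import Pool.Agent.Lib.MP_6ff8d9_an_h23.Proj

/-!
# Row CARTAN: the automorphisms of the ball of `ℂ²` are given by matrices of `U(2,1)`
-/

open Metric Filter Topology MvPolynomial Matrix
open scoped ComplexConjugate

namespace Pool.Agent.Lib.MP_6ff8d9_an.N2

open Pool.Agent.Lib.MP_6ff8d9_an Pool.Agent.Lib.MP_6ff8d9_an.H22

noncomputable section

/-- an automorphism of the ball which fixes the origin is linear and isometric -/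
theorem linear_of_fix {n : ℕ} {φ ψ : Cn n → Cn n} (h : BallAut n φ ψ) (h0 : φ 0 = 0) :
    ∃ L : Cn n →L[ℂ] Cn n, (∀ z, ‖L z‖ = ‖z‖) ∧ ∀ z ∈ ball (0 : Cn n) 1, φ z = L z := by
  have hb0 : (0 : Cn n) ∈ ball (0 : Cn n) 1 := mem_ball_self one_pos
  have hψ0 : ψ 0 = 0 := by
    have := h.left 0 hb0
    rwa [h0] at this
  have hn : ∀ z ∈ ball (0 : Cn n) 1, ‖φ z‖ = ‖z‖ := by
    intro z hz
    refine le_antisymm ?_ ?_
    · exact Complex.norm_le_norm_of_mapsTo_ball h.dφ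
        (fun w hw => ball_subset_closedBall (h.mφ w hw)) h0 (mem_ball_zero_iff.1 hz)
    · have := Complex.norm_le_norm_of_mapsTo_ball h.dψ
        (fun w hw => ball_subset_closedBall (h.mψ w hw)) hψ0 (mem_ball_zero_iff.1 (h.mφ z hz))
      rwa [h.left z hz] at this
  have hd : HasFDerivAt φ (fderiv ℂ φ 0) 0 :=
    ((h.dφ 0 hb0).differentiableAt (isOpen_ball.mem_nhds hb0)).hasFDerivAt
  have key : ∀ u : Cn n, ‖u‖ = 1 → ∀ t ∈ ball (0 : ℂ) 1, φ (t • u) = t • fderiv ℂ φ 0 u := by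
    intro u hu
    have hmap : ∀ t ∈ ball (0 : ℂ) 1, t • u ∈ ball (0 : Cn n) 1 := by
      intro t ht
      rw [mem_ball_zero_iff] at ht ⊢
      rwa [norm_smul, hu, mul_one]
    have hf : DifferentiableOn ℂ (fun t : ℂ => φ (t • u)) (ball 0 1) :=
      h.dφ.comp (by fun_prop) hmap
    have hm : Set.MapsTo (fun t : ℂ => φ (t • u)) (ball 0 1)
        (closedBall ((fun t : ℂ => φ (t • u)) 0) 1) := by
      intro t ht
      show φ (t • u) ∈ closedBall (φ ((0 : ℂ) • u)) 1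
      rw [zero_smul, h0]
      exact ball_subset_closedBall (h.mφ _ (hmap t ht))
    have hhalf : (1 / 2 : ℂ) ∈ ball (0 : ℂ) 1 := by
      rw [mem_ball_zero_iff]
      norm_num
    have hds : ‖dslope (fun t : ℂ => φ (t • u)) 0 (1 / 2)‖ = 1 / 1 := by
      rw [dslope_of_ne _ (by norm_num), slope_def_module]
      simp only [zero_smul, h0, sub_zero, norm_smul]
      rw [hn _ (hmap _ hhalf), norm_smul, hu]
      norm_num
    obtain ⟨C, -, hE⟩ := Complex.affine_of_mapsTo_ball_of_exists_norm_dslope_eq_div' hf hm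
      ⟨1 / 2, hhalf, hds⟩
    have hE' : ∀ t ∈ ball (0 : ℂ) 1, φ (t • u) = t • C := by
      intro t ht
      have := hE ht
      simpa [h0] using this
    have d1 : HasDerivAt (fun t : ℂ => φ (t • u)) (fderiv ℂ φ 0 u) 0 := by
      have hl : HasDerivAt (fun t : ℂ => t • u) u 0 := by
        simpa using (hasDerivAt_id (0 : ℂ)).smul_const u
      have hd' : HasFDerivAt φ (fderiv ℂ φ 0) ((fun t : ℂ => t • u) 0) := by
        simpa using hd
      exact hd'.comp_hasDerivAt 0 hl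
    have d2 : HasDerivAt (fun t : ℂ => φ (t • u)) C 0 := by
      have hl : HasDerivAt (fun t : ℂ => t • C) C 0 := by
        simpa using (hasDerivAt_id (0 : ℂ)).smul_const C
      refine hl.congr_of_eventuallyEq ?_
      filter_upwards [isOpen_ball.mem_nhds (mem_ball_self (one_pos : (0 : ℝ) < 1))] with t ht
      exact hE' t ht
    intro t ht
    rw [hE' t ht, d1.unique d2]
  have hL : ∀ z ∈ ball (0 : Cn n) 1, φ z = fderiv ℂ φ 0 z := by
    intro z hz
    rcases eq_or_ne z 0 with rfl | hz0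
    · rw [h0, map_zero]
    · have hz1 : ‖z‖ ≠ 0 := norm_ne_zero_iff.2 hz0
      have hz1' : (‖z‖ : ℂ) ≠ 0 := by exact_mod_cast hz1
      have hu : ‖((‖z‖ : ℂ)⁻¹ • z)‖ = 1 := by
        rw [norm_smul, norm_inv, Complex.norm_real, norm_norm, inv_mul_cancel₀ hz1]
      have ht : (‖z‖ : ℂ) ∈ ball (0 : ℂ) 1 := by
        rw [mem_ball_zero_iff, Complex.norm_real, norm_norm]
        exact mem_ball_zero_iff.1 hz
      have h1 := key _ hu _ ht
      rw [smul_smul, mul_inv_cancel₀ hz1', one_smul, map_smul, smul_smul,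
        mul_inv_cancel₀ hz1', one_smul] at h1
      exact h1
  refine ⟨fderiv ℂ φ 0, fun z => ?_, hL⟩
  rcases eq_or_ne z 0 with rfl | hz0
  · simp
  · have hz1 : 0 < ‖z‖ := norm_pos_iff.2 hz0
    have hw : ((2 * ‖z‖ : ℝ) : ℂ)⁻¹ • z ∈ ball (0 : Cn n) 1 := by
      rw [mem_ball_zero_iff, norm_smul, norm_inv, Complex.norm_real, Real.norm_eq_abs,
        abs_of_pos (by positivity)]
      rw [inv_mul_lt_iff₀ (by positivity)]
      linarith
    have h1 := hn _ hw
    rw [hL _ hw, map_smul, norm_smul, norm_smul] at h1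
    have h2 : ‖((2 * ‖z‖ : ℝ) : ℂ)⁻¹‖ ≠ 0 := by
      rw [norm_ne_zero_iff]
      exact inv_ne_zero (by exact_mod_cast (by positivity : (2 * ‖z‖ : ℝ) ≠ 0))
    exact mul_left_cancel₀ h2 h1

/-- the boost which moves the origin to `a` -/
def boost (a0 a1 r t : ℂ) : Matrix (Fin 3) (Fin 3) ℂ :=
  !![r, r * conj a0, r * conj a1;
    r * a0, 1 + t * (a0 * conj a0), t * (a0 * conj a1);
    r * a1, t * (a1 * conj a0), 1 + t * (a1 * conj a1)]

theorem boost_herm (a0 a1 : ℂ) (r t : ℝ) : (boost a0 a1 r t)ᴴ = boost a0 a1 r t := by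
  ext i j
  fin_cases i <;> fin_cases j <;>
  simp [boost, Matrix.conjTranspose_apply, mul_comm]

theorem boost_ju (a0 a1 : ℂ) (r s t : ℝ) (hs : (s : ℂ) ^ 2 = 1 - a0 * conj a0 - a1 * conj a1)
    (hr : (r : ℂ) * s = 1) (ht : (t : ℂ) * (s * (1 + s)) = 1) :
    (boost a0 a1 r t)ᴴ * J3 * boost a0 a1 r t = J3 := by
  have f1 : (r : ℂ) ^ 2 * (a0 * conj a0 + a1 * conj a1) = r ^ 2 - 1 := by
    linear_combination ((r : ℂ) ^ 2) * hs - (r * s + 1) * hr
  have f0 : (t : ℂ) * (1 + s) = r := by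
    linear_combination (r : ℂ) * ht - (t * (1 + s)) * hr
  have f2 : (t : ℂ) * (a0 * conj a0 + a1 * conj a1) = r - 1 := by
    linear_combination (t : ℂ) * hs + f0 - ht
  have f3 : (t : ℂ) * (1 + r) = r ^ 2 := by
    linear_combination (r : ℂ) * f0 - t * hr
  rw [boost_herm, J3]
  ext i j
  rw [Matrix.mul_apply]
  simp only [Matrix.mul_diagonal, Fin.sum_univ_three, Matrix.diagonal_apply]
  fin_cases i <;> fin_cases j <;> simp [boost]
  · linear_combination f1
  · linear_combination ((r : ℂ) * conj a0) * f2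
  · linear_combination ((r : ℂ) * conj a1) * f2
  · linear_combination ((r : ℂ) * a0) * f2
  · linear_combination (a0 * conj a0) * (t * f2 + f3)
  · linear_combination (a0 * conj a1) * (t * f2 + f3)
  · linear_combination ((r : ℂ) * a1) * f2
  · linear_combination (a1 * conj a0) * (t * f2 + f3)
  · linear_combination (a1 * conj a1) * (t * f2 + f3)

/-- transitivity -/
theorem exists_boost {a : Fin 2 → ℂ} (ha : a ∈ Bn 2) :
    ∃ A : Matrix (Fin 3) (Fin 3) ℂ, Aᴴ * J3 * A = J3 ∧ act A 0 = a := by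
  rw [mem_Bn2] at ha
  set s : ℝ := √(1 - ‖a 0‖ ^ 2 - ‖a 1‖ ^ 2) with hs
  have hs0 : 0 < s := Real.sqrt_pos.2 (by linarith)
  have hs2 : s ^ 2 = 1 - ‖a 0‖ ^ 2 - ‖a 1‖ ^ 2 := Real.sq_sqrt (by linarith)
  have hc : ∀ z : ℂ, z * conj z = ((‖z‖ ^ 2 : ℝ) : ℂ) := by
    intro z
    rw [Complex.mul_conj, Complex.normSq_eq_norm_sq]
  refine ⟨boost (a 0) (a 1) (s⁻¹ : ℝ) ((s * (1 + s))⁻¹ : ℝ),
    boost_ju (a 0) (a 1) s⁻¹ s (s * (1 + s))⁻¹ ?_ ?_ ?_, ?_⟩
  · rw [hc, hc]
    exact_mod_cast hs2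
  · exact_mod_cast inv_mul_cancel₀ hs0.ne'
  · exact_mod_cast inv_mul_cancel₀ (by positivity : s * (1 + s) ≠ 0)
  · have hsc : (s : ℂ) ≠ 0 := by exact_mod_cast hs0.ne'
    funext i
    fin_cases i
    · simp only [act, pr, hz, boost, Matrix.mulVec, dotProduct, Fin.sum_univ_three]
      simp
      field_simp
    · simp only [act, pr, hz, boost, Matrix.mulVec, dotProduct, Fin.sum_univ_three]
      simp
      field_simp

/-- a linear isometry as a matrix -/
theorem exists_unit (L : Cn 2 →L[ℂ] Cn 2) (hL : ∀ z, ‖L z‖ = ‖z‖) :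
    ∃ A : Matrix (Fin 3) (Fin 3) ℂ, Aᴴ * J3 * A = J3 ∧ ∀ z : Cn 2, actC A z = L z := by
  let li : Cn 2 →ₗᵢ[ℂ] Cn 2 := ⟨L.toLinearMap, hL⟩
  have hin : ∀ x y : Cn 2, inner ℂ (L x) (L y) = inner ℂ x y := fun x y => li.inner_map_map x y
  let u : Fin 2 → Fin 2 → ℂ := fun i j => L (EuclideanSpace.single j (1 : ℂ)) i
  have hu : ∀ j k, conj (u 0 j) * u 0 k + conj (u 1 j) * u 1 k = if j = k then 1 else 0 := by
    intro j k
    have h1 := hin (EuclideanSpace.single j (1 : ℂ)) (EuclideanSpace.single k (1 : ℂ))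
    rw [EuclideanSpace.inner_single_left] at h1
    rw [PiLp.inner_apply] at h1
    simp only [Fin.sum_univ_two] at h1
    simp at h1
    rw [← h1]
    simp only [u]
    ring
  have hLz : ∀ z : Cn 2, ∀ i, L z i = u i 0 * z 0 + u i 1 * z 1 := by
    intro z i
    have hz' : z = z 0 • EuclideanSpace.single (0 : Fin 2) (1 : ℂ) +
        z 1 • EuclideanSpace.single (1 : Fin 2) (1 : ℂ) := by
      ext k
      fin_cases k <;> simp
    conv_lhs => rw [hz']
    rw [map_add, map_smul, map_smul]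
    simp [u]
    ring
  refine ⟨!![1, 0, 0; 0, u 0 0, u 0 1; 0, u 1 0, u 1 1], ?_, ?_⟩
  · ext i j
    rw [J3, Matrix.mul_apply]
    simp only [Matrix.mul_diagonal, Fin.sum_univ_three, Matrix.diagonal_apply,
      Matrix.conjTranspose_apply]
    fin_cases i <;> fin_cases j <;> simp
    · simpa using hu 0 0
    · simpa using hu 0 1
    · simpa using hu 1 0
    · simpa using hu 1 1
  · intro z
    ext i
    rw [hLz]
    fin_cases i
    · simp [actC, act, pr, hz, Matrix.mulVec, dotProduct, Fin.sum_univ_three]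
    · simp [actC, act, pr, hz, Matrix.mulVec, dotProduct, Fin.sum_univ_three]

theorem cartan : CARTAN := by
  intro φ ψ h
  have hb0 : (0 : Cn 2) ∈ ball (0 : Cn 2) 1 := mem_ball_self one_pos
  have ha : (fun i => φ 0 i) ∈ Bn 2 := ball_iff.1 (h.mφ 0 hb0)
  obtain ⟨A, hA, hA0⟩ := exists_boost ha
  obtain ⟨hp, hB⟩ := proj A hA
  have hz0 : (0 : Fin 2 → ℂ) ∈ Bn 2 := by rw [mem_Bn2]; simp
  -- `χ = A⁻¹ ∘ φ`
  have hBA : BallAut 2 (fun z => WithLp.toLp 2 (act A⁻¹ (fun i => φ z i)))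
      (fun z => ψ (WithLp.toLp 2 (act A (fun i => z i)))) := by
    refine ⟨hB.dψ.comp h.dφ h.mφ, h.dψ.comp hB.dφ hB.mφ, fun z hz => hB.mψ _ (h.mφ z hz),
      fun z hz => h.mψ _ (hB.mφ z hz), fun z hz => ?_, fun z hz => ?_⟩
    · have h1 := hB.right _ (h.mφ z hz)
      simp only at h1
      show ψ (WithLp.toLp 2 (act A (act A⁻¹ fun i => φ z i))) = z
      rw [(hp _ (ball_iff.1 (h.mφ z hz))).2.2.2.1]
      exact h.left z hz
    · show WithLp.toLp 2 (act A⁻¹ fun i => φ (ψ (WithLp.toLp 2 (act A fun i => z i))) i) = z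
      rw [h.right _ (hB.mφ z hz)]
      exact hB.left z hz
  have hfix : (fun z => WithLp.toLp 2 (act A⁻¹ (fun i => φ z i)) : Cn 2 → Cn 2) 0 = 0 := by
    show WithLp.toLp 2 (act A⁻¹ (fun i => φ 0 i)) = 0
    rw [← hA0, (hp 0 hz0).2.2.1]
    rfl
  obtain ⟨L, hLn, hL⟩ := linear_of_fix hBA hfix
  obtain ⟨C, hC, hCz⟩ := exists_unit L hLn
  refine ⟨A * C, ?_, fun z hz => ?_⟩
  · rw [Matrix.conjTranspose_mul]
    calc Cᴴ * Aᴴ * J3 * (A * C) = Cᴴ * (Aᴴ * J3 * A) * C := by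
          simp only [Matrix.mul_assoc]
      _ = J3 := by rw [hA, hC]
  · have h1 := hL z hz
    simp only at h1
    have h2 : (fun i => φ z i) = act A (act A⁻¹ (fun i => φ z i)) :=
      ((hp _ (ball_iff.1 (h.mφ z hz))).2.2.2.1).symm
    have h3 : act A⁻¹ (fun i => φ z i) = act C (fun i => z i) := by
      have h4 := h1.trans (hCz z).symm
      exact congrArg (WithLp.ofLp) h4
    have h5 : act A (act C (fun i => z i)) = act (A * C) (fun i => z i) :=
      (proj C hC).1 _ (ball_iff.1 hz) |>.2.2.2.2.2 A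
    show φ z = WithLp.toLp 2 (act (A * C) fun i => z i)
    rw [← h5, ← h3, ← h2]

end

end Pool.Agent.Lib.MP_6ff8d9_an.N2
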