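import Pool.Agent.Lib.MP_6ff8d9_an_h8.SymRows2
import Pool.Agent.Lib.MP_6ff8d9_an_h46.SymCartan
import Pool.Agent.Lib.MP_6ff8d9_an_h50.Mono

/-!
# Row RATL: functions equivalent to the rational members of the list are rational
-/

open Metric Filter Topology MvPolynomial Matrix
open scoped ComplexConjugate

namespace Pool.Agent.Lib.MP_6ff8d9_an.N2

open Pool.Agent.Lib.MP_6ff8d9_an Pool.Agent.Lib.MP_6ff8d9_an.H22

noncomputable section

/-- rational on the ball, with a denominator without zeros -/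
def RatB (f : Cn 2 → ℂ) : Prop :=
  ∃ p q : MvPolynomial (Fin 2) ℂ, ∀ z ∈ ball (0 : Cn 2) 1,
    eval (fun i => z i) q ≠ 0 ∧ f z = eval (fun i => z i) p / eval (fun i => z i) q

theorem RatB.const (c : ℂ) : RatB (fun _ => c) :=
  ⟨C c, 1, fun z _ => by simp⟩

theorem RatB.add {f g : Cn 2 → ℂ} (hf : RatB f) (hg : RatB g) : RatB (fun z => f z + g z) := by
  obtain ⟨p, q, h⟩ := hf
  obtain ⟨p', q', h'⟩ := hg
  refine ⟨p * q' + q * p', q * q', fun z hz => ?_⟩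
  obtain ⟨h1, h2⟩ := h z hz
  obtain ⟨h1', h2'⟩ := h' z hz
  dsimp only
  rw [map_mul, map_add, map_mul, map_mul, h2, h2']
  exact ⟨mul_ne_zero h1 h1', div_add_div _ _ h1 h1'⟩

theorem RatB.mul {f g : Cn 2 → ℂ} (hf : RatB f) (hg : RatB g) : RatB (fun z => f z * g z) := by
  obtain ⟨p, q, h⟩ := hf
  obtain ⟨p', q', h'⟩ := hg
  refine ⟨p * p', q * q', fun z hz => ?_⟩
  obtain ⟨h1, h2⟩ := h z hz
  obtain ⟨h1', h2'⟩ := h' z hz
  dsimp only
  rw [map_mul, map_mul, h2, h2']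
  exact ⟨mul_ne_zero h1 h1', div_mul_div_comm _ _ _ _⟩

theorem RatB.div {f g : Cn 2 → ℂ} (hf : RatB f) (hg : RatB g)
    (hne : ∀ z ∈ ball (0 : Cn 2) 1, g z ≠ 0) : RatB (fun z => f z / g z) := by
  obtain ⟨p, q, h⟩ := hf
  obtain ⟨p', q', h'⟩ := hg
  refine ⟨p * q', q * p', fun z hz => ?_⟩
  obtain ⟨h1, h2⟩ := h z hz
  obtain ⟨h1', h2'⟩ := h' z hz
  have h3 := hne z hz
  rw [h2'] at h3
  have h4 : eval (fun i => z i) p' ≠ 0 := fun h => h3 (by rw [h, zero_div])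
  dsimp only
  rw [map_mul, map_mul, h2, h2']
  exact ⟨mul_ne_zero h1 h4, div_div_div_eq _ _ _ _⟩

theorem RatB.poly {f : Cn 2 → Fin 2 → ℂ} (hf : ∀ i, RatB (fun z => f z i))
    (N : MvPolynomial (Fin 2) ℂ) : RatB (fun z => eval (f z) N) := by
  induction N using MvPolynomial.induction_on with
  | C a => simpa using RatB.const a
  | add p q hp hq => simpa using hp.add hq
  | mul_X p i hp => simpa using hp.mul (hf i)

theorem sharp_cS {a b : ℕ} (ha : 1 ≤ a) (hb : 1 ≤ b) : Sharp a b (cS a b) := by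
  have ha' : (0 : ℝ) < a := by exact_mod_cast ha
  have hb' : (0 : ℝ) < b := by exact_mod_cast hb
  have h0 : (0 : ℝ) < (a : ℝ) ^ a * (b : ℝ) ^ b := by positivity
  unfold Sharp cS
  rw [Complex.norm_real, Real.norm_eq_abs, sq_abs, Real.sq_sqrt (by positivity)]
  exact div_mul_cancel₀ _ h0.ne'

theorem Idx.fn_rat (i : Idx) (ha : i.Adm) (hA : i.Alg) : RatB i.fn := by
  have hball : ∀ z ∈ ball (0 : Cn 2) 1, ‖z 0‖ ^ 2 + ‖z 1‖ ^ 2 < 1 := fun z hz =>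
    mem_Bn2.1 (ball_iff.1 hz)
  have h1 : ∀ z ∈ ball (0 : Cn 2) 1, (1 - z 0 : ℂ) ≠ 0 := by
    intro z hz h
    have h2 : z 0 = 1 := (sub_eq_zero.1 h).symm
    have h3 := hball z hz
    rw [h2, norm_one] at h3
    nlinarith [sq_nonneg ‖z 1‖]
  have h2 : ∀ z ∈ ball (0 : Cn 2) 1, (1 - z 0 ^ 2 - z 1 ^ 2 : ℂ) ≠ 0 := by
    intro z hz h
    have h3 : (1 : ℂ) = z 0 ^ 2 + z 1 ^ 2 := by linear_combination h
    have h4 : (1 : ℝ) ≤ ‖z 0‖ ^ 2 + ‖z 1‖ ^ 2 := by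
      calc (1 : ℝ) = ‖(1 : ℂ)‖ := norm_one.symm
        _ = ‖z 0 ^ 2 + z 1 ^ 2‖ := by rw [← h3]
        _ ≤ ‖z 0 ^ 2‖ + ‖z 1 ^ 2‖ := norm_add_le _ _
        _ = _ := by rw [norm_pow, norm_pow]
    linarith [hball z hz]
  have hX : ∀ z ∈ ball (0 : Cn 2) 1, (1 + z 0) / (1 - z 0) - (z 1 / (1 - z 0)) ^ 2 =
      (1 - z 0 ^ 2 - z 1 ^ 2) / (1 - z 0) ^ 2 := by
    intro z hz
    have := h1 z hz
    field_simp
    ring
  cases i with
  | mono a b =>
    obtain ⟨ha1, hab, -⟩ := ha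
    refine ⟨1 + C (cS a b : ℂ) * X 0 ^ a * X 1 ^ b, 1 - C (cS a b : ℂ) * X 0 ^ a * X 1 ^ b,
      fun z hz => ⟨?_, ?_⟩⟩
    · have h3 := H50M.maxm a b (cS a b) ha1 (ha1.trans hab) (sharp_cS ha1 (ha1.trans hab)) _
        (ball_iff.1 hz)
      simp only [map_sub, map_one, map_mul, map_pow, eval_C, eval_X]
      intro h
      have h4 : (cS a b : ℂ) * z 0 ^ a * z 1 ^ b = 1 := (sub_eq_zero.1 h).symm
      rw [h4, norm_one] at h3
      exact lt_irrefl _ h3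
    · simp only [map_sub, map_add, map_one, map_mul, map_pow, eval_C, eval_X]
      rfl
  | quad =>
    refine ⟨1 - X 0 ^ 2 - X 1 ^ 2, (1 - X 0) ^ 2, fun z hz => ⟨?_, ?_⟩⟩
    · simp only [map_sub, map_one, map_pow, eval_X]
      exact pow_ne_zero 2 (h1 z hz)
    · simp only [map_sub, map_one, map_pow, eval_X]
      exact hX z hz
  | quadInv =>
    refine ⟨(1 - X 0) ^ 2, 1 - X 0 ^ 2 - X 1 ^ 2, fun z hz => ⟨?_, ?_⟩⟩
    · simp only [map_sub, map_one, map_pow, eval_X]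
      exact h2 z hz
    · simp only [map_sub, map_one, map_pow, eval_X]
      show ((1 + z 0) / (1 - z 0) - (z 1 / (1 - z 0)) ^ 2)⁻¹ = _
      rw [hX z hz, inv_div]
  | hyp θ => exact hA.elim
  | par => exact hA.elim

theorem ratl : RATL := by
  rintro g i ha hA ⟨φ, ψ, hB, hg⟩
  obtain ⟨A, hJ, hφ⟩ := cartan φ ψ hB
  obtain ⟨N, D, hND⟩ := i.fn_rat ha hA
  have hp := (proj A hJ).1
  have hrow : ∀ (k : Fin 3) (z : Cn 2), eval (fun i => z i)
      (C (A k 0) + C (A k 1) * X 0 + C (A k 2) * X 1) = (A *ᵥ hz (fun i => z i)) k := by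
    intro k z
    simp [Matrix.mulVec, dotProduct, Fin.sum_univ_three, hz]
  have hco : ∀ j : Fin 2, RatB (fun z => φ z j) := by
    intro j
    refine ⟨C (A j.succ 0) + C (A j.succ 1) * X 0 + C (A j.succ 2) * X 1,
      C (A 0 0) + C (A 0 1) * X 0 + C (A 0 2) * X 1, fun z hz' => ?_⟩
    rw [hrow, hrow]
    refine ⟨(hp _ (ball_iff.1 hz')).1, ?_⟩
    dsimp only
    rw [hφ z hz']
    fin_cases j <;> rfl
  have hG : RatB (fun z => i.fn (φ z)) := by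
    have h1 := RatB.poly hco N
    have h2 := RatB.poly hco D
    have h3 := h1.div h2 (fun z hz' => (hND (φ z) (hB.mφ z hz')).1)
    obtain ⟨p, q, h⟩ := h3
    refine ⟨p, q, fun z hz' => ?_⟩
    have h4 := (hND (φ z) (hB.mφ z hz')).2
    refine ⟨(h z hz').1, ?_⟩
    dsimp only
    rw [h4]
    exact (h z hz').2
  have h5 : RatB (fun z => (i.fn (φ z) + -(Complex.I * (i.fn (φ 0)).im)) *
      ((i.fn (φ 0)).re : ℂ)⁻¹) := (hG.add (RatB.const _)).mul (RatB.const _)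
  obtain ⟨p, q, h⟩ := h5
  refine ⟨p, q, fun z hz' => ?_⟩
  rw [hg z hz', ← (h z hz').2, nrm, div_eq_mul_inv, sub_eq_add_neg]

end

end Pool.Agent.Lib.MP_6ff8d9_an.N2
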